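import Pool.Agent.ABC3.Stmts

/-!
# Squad ABC3, row BON
-/

set_option autoImplicit false
set_option linter.unusedSectionVars false

namespace Pool.Agent.ABC3.H92

open Matrix
open scoped TensorProduct

variable {K Q B : Type} [Field K] [AddCommGroup Q] [Module K Q] [Fintype B] [DecidableEq B]

/-- The projection of `P` onto `P ∩ ker l` along `q`. -/
noncomputable def prj (P : Submodule K Q) (l : Q →ₗ[K] K) (q : Q) (hqP : q ∈ P) (hlq : l q = 1) :
    P →ₗ[K] (P ⊓ LinearMap.ker l : Submodule K Q) :=
  LinearMap.codRestrict _ (P.subtype - (l.comp P.subtype).smulRight q) (by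
    intro p
    refine ⟨?_, ?_⟩
    · simp only [LinearMap.sub_apply, Submodule.subtype_apply, LinearMap.smulRight_apply,
        LinearMap.comp_apply]
      exact P.sub_mem p.2 (P.smul_mem _ hqP)
    · simp [hlq])

theorem prj_coe (P : Submodule K Q) (l : Q →ₗ[K] K) (q : Q) (hqP : q ∈ P) (hlq : l q = 1) (p : P) :
    ((prj P l q hqP hlq p : (P ⊓ LinearMap.ker l : Submodule K Q)) : Q) =
      (p : Q) - l (p : Q) • q := rfl

/-- contraction with `l` -/
noncomputable def ctr (P : Submodule K Q) (C : Submodule K (B → K)) (l : Q →ₗ[K] K) :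
    TensorProduct K P C →ₗ[K] C :=
  TensorProduct.lift ((LinearMap.lsmul K C).comp (l.comp P.subtype))

theorem ctr_tmul (P : Submodule K Q) (C : Submodule K (B → K)) (l : Q →ₗ[K] K) (p : P) (u : C) :
    ctr P C l (p ⊗ₜ[K] u) = l (p : Q) • u := by
  simp [ctr]

theorem mv_comm {M N : Matrix B B K} (h : M * N = N * M) (v : B → K) :
    M.mulVec (N.mulVec v) = N.mulVec (M.mulVec v) := by
  rw [Matrix.mulVec_mulVec, h, ← Matrix.mulVec_mulVec]

theorem step (S : Sys K Q B) (P : Submodule K Q) (C : Submodule K (B → K)) (l : Q →ₗ[K] K) (q : Q)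
    (hqP : q ∈ P) (hlq : l q = 1) (g : Matrix B B K) (hg : Com S (P ⊓ LinearMap.ker l) g)
    (h0 : ∀ u ∈ C, g.mulVec ((S.act q).mulVec u) = 0) (φ : C →ₗ[K] C)
    (hφ : ∀ u : C, (φ u : B → K) = g.mulVec ((S.act q).mulVec ((S.act q).mulVec (u : B → K))))
    (inj : Function.Injective (mulMap S (P ⊓ LinearMap.ker l) C)) (ω : TensorProduct K P C)
    (hω : mulMap S P C ω = 0) : (LinearMap.lTensor P φ) ω = 0 := by
  have h1 : ∀ ω : TensorProduct K P C, mulMap S P C ω =
      mulMap S (P ⊓ LinearMap.ker l) C (LinearMap.rTensor C (prj P l q hqP hlq) ω) +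
        (S.act q).mulVec (ctr P C l ω : B → K) := by
    intro ω
    induction ω using TensorProduct.induction_on with
    | zero => simp
    | tmul p u =>
      rw [mulMap_tmul, LinearMap.rTensor_tmul, mulMap_tmul, prj_coe, ctr_tmul]
      simp only [map_sub, map_smul, Matrix.sub_mulVec, Matrix.smul_mulVec, Submodule.coe_smul,
        Matrix.mulVec_smul, sub_add_cancel]
    | add x y hx hy =>
      rw [map_add, hx, hy]
      simp only [map_add, Submodule.coe_add, Matrix.mulVec_add]
      abel
  have h2 : ∀ ω' : TensorProduct K (P ⊓ LinearMap.ker l : Submodule K Q) C,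
      g.mulVec ((S.act q).mulVec (mulMap S (P ⊓ LinearMap.ker l) C ω')) = 0 := by
    intro ω'
    induction ω' using TensorProduct.induction_on with
    | zero => simp
    | tmul p u =>
      rw [mulMap_tmul, mv_comm (S.comm q p), mv_comm (hg p p.2).symm, h0 u u.2, Matrix.mulVec_zero]
    | add x y hx hy =>
      rw [map_add, Matrix.mulVec_add, Matrix.mulVec_add, hx, hy, add_zero]
  have h3 : ∀ ω' : TensorProduct K (P ⊓ LinearMap.ker l : Submodule K Q) C,
      mulMap S (P ⊓ LinearMap.ker l) C (LinearMap.lTensor _ φ ω') =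
        g.mulVec ((S.act q).mulVec ((S.act q).mulVec (mulMap S (P ⊓ LinearMap.ker l) C ω'))) := by
    intro ω'
    induction ω' using TensorProduct.induction_on with
    | zero => simp
    | tmul p u =>
      rw [LinearMap.lTensor_tmul, mulMap_tmul, mulMap_tmul, hφ, mv_comm (hg p p.2),
        mv_comm (S.comm p q), mv_comm (S.comm p q)]
    | add x y hx hy =>
      rw [map_add, map_add, hx, hy, map_add, Matrix.mulVec_add, Matrix.mulVec_add,
        Matrix.mulVec_add]
  have h4 : ∀ ω : TensorProduct K P C, LinearMap.lTensor P φ ω =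
      LinearMap.rTensor C (Submodule.inclusion (inf_le_left : P ⊓ LinearMap.ker l ≤ P))
        (LinearMap.lTensor _ φ (LinearMap.rTensor C (prj P l q hqP hlq) ω)) +
        (⟨q, hqP⟩ : P) ⊗ₜ[K] φ (ctr P C l ω) := by
    intro ω
    induction ω using TensorProduct.induction_on with
    | zero => simp
    | tmul p u =>
      rw [LinearMap.rTensor_tmul, LinearMap.lTensor_tmul, LinearMap.lTensor_tmul,
        LinearMap.rTensor_tmul, ctr_tmul, map_smul, TensorProduct.tmul_smul,
        TensorProduct.smul_tmul', ← TensorProduct.add_tmul]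
      have : p = Submodule.inclusion (inf_le_left : P ⊓ LinearMap.ker l ≤ P)
          (prj P l q hqP hlq p) + l (p : Q) • (⟨q, hqP⟩ : P) := by
        apply Subtype.ext
        rw [Submodule.coe_add, Submodule.coe_inclusion, prj_coe, Submodule.coe_smul]
        simp
      rw [← this]
    | add x y hx hy =>
      rw [map_add, hx, hy]
      simp only [map_add, TensorProduct.tmul_add]
      abel
  have h5 : mulMap S (P ⊓ LinearMap.ker l) C (LinearMap.rTensor C (prj P l q hqP hlq) ω) =
      - (S.act q).mulVec (ctr P C l ω : B → K) := by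
    have := h1 ω
    rw [hω] at this
    exact eq_neg_of_add_eq_zero_left this.symm
  have h6 : φ (ctr P C l ω) = 0 := by
    apply Subtype.ext
    rw [hφ, ← neg_neg ((S.act q).mulVec (ctr P C l ω : B → K)), ← h5, Matrix.mulVec_neg,
      Matrix.mulVec_neg, h2, neg_zero]
    rfl
  have h7 : LinearMap.lTensor _ φ (LinearMap.rTensor C (prj P l q hqP hlq) ω) = 0 := by
    apply inj
    have h8 : ∀ x : B → K, (S.act q).mulVec ((S.act q).mulVec ((S.act q).mulVec x)) = 0 := by
      intro x
      rw [Matrix.mulVec_mulVec, Matrix.mulVec_mulVec, S.cube, Matrix.zero_mulVec]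
    rw [h3, h5, map_zero, Matrix.mulVec_neg, Matrix.mulVec_neg, Matrix.mulVec_neg,
      h8, Matrix.mulVec_zero, neg_zero]
  rw [h4, h6, h7, map_zero, TensorProduct.tmul_zero, add_zero]

theorem homV_mulVec {deg : B → ℤ} {k d : ℤ} {M : Matrix B B K} (hM : HasDeg deg k M) {v : B → K}
    (hv : HomV deg d v) : HomV deg (d + k) (M.mulVec v) := by
  intro s hs
  obtain ⟨j, _, hj⟩ := Finset.exists_ne_zero_of_sum_ne_zero hs
  have h1 : M s j ≠ 0 := left_ne_zero_of_mul hj
  have h2 : v j ≠ 0 := right_ne_zero_of_mul hj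
  rw [hM s j h1, hv j h2]

theorem bon : Pool.Agent.ABC3.BONStmt := by
  intro K Q B _ _ _ _ _ _ _ S ι _ ev e b he hd hc hlow hstar
  have main : ∀ n : ℕ, ∀ P : Submodule K Q, Module.finrank K P = n → P ≠ ⊤ →
      Function.Injective (mulMap S P (Cd S e b)) := by
    intro n
    induction n using Nat.strong_induction_on with
    | _ n ih =>
    intro P hP hT
    rw [injective_iff_map_eq_zero]
    intro ω hω
    by_cases hbot : P = ⊥
    · subst hbot
      have : ∀ ω : TensorProduct K (⊥ : Submodule K Q) (Cd S e b), ω = 0 := by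
        intro ω
        induction ω using TensorProduct.induction_on with
        | zero => rfl
        | tmul p u =>
          have : p = 0 := Subsingleton.elim _ _
          rw [this, TensorProduct.zero_tmul]
        | add x y hx hy => rw [hx, hy, add_zero]
      exact this ω
    obtain ⟨g, hg, hgs⟩ := hstar P hbot hT
    have hq : ∀ c, ∃ q : Q, ¬ P ≤ LinearMap.ker (ev c) → q ∈ P ∧ ev c q = 1 := by
      intro c
      by_cases h : P ≤ LinearMap.ker (ev c)
      · exact ⟨0, fun h' => absurd h h'⟩
      · obtain ⟨p, hp, hp'⟩ := Set.not_subset.1 h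
        have hp'' : ev c p ≠ 0 := hp'
        exact ⟨(ev c p)⁻¹ • p, fun _ => ⟨P.smul_mem _ hp, by
          rw [map_smul, smul_eq_mul, inv_mul_cancel₀ hp'']⟩⟩
    choose q hq using hq
    have hgs' := hgs q hq
    -- the operators `g c` kill
    have hge : ∀ c (x : B → K), e.mulVec ((g c).mulVec x) = (g c).mulVec x := by
      intro c x
      have h : e * g c = g c := by
        conv_lhs => rw [← (hg c).2.2.1]
        rw [← mul_assoc, ← mul_assoc, he]
        exact (hg c).2.2.1
      rw [Matrix.mulVec_mulVec, h]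
    have hq1 : ∀ c, HasDeg S.deg 1 (S.act (q c)) := fun c s s' h => S.hdeg _ s s' h
    have hg1 : ∀ c, ∀ u ∈ Cd S e b, (g c).mulVec u = 0 := by
      intro c u hu
      exact hlow (b + -2) (by omega) _ (homV_mulVec (hg c).1 hu.1) (hge c u)
    have hg2 : ∀ c, ∀ u ∈ Cd S e b, (g c).mulVec ((S.act (q c)).mulVec u) = 0 := by
      intro c u hu
      exact hlow (b + 1 + -2) (by omega) _
        (homV_mulVec (hg c).1 (homV_mulVec (hq1 c) hu.1)) (hge c _)
    -- the maps `φ c`
    have hφ : ∀ c, ∃ φ : (Cd S e b) →ₗ[K] (Cd S e b), ∀ u : Cd S e b, (φ u : B → K) =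
        (g c).mulVec ((S.act (q c)).mulVec ((S.act (q c)).mulVec (u : B → K))) := by
      intro c
      refine ⟨LinearMap.codRestrict _ (((g c).mulVecLin.comp ((S.act (q c)).mulVecLin.comp
        (S.act (q c)).mulVecLin)).comp (Cd S e b).subtype) ?_, ?_⟩
      · intro u
        refine ⟨?_, ?_⟩
        · have := homV_mulVec (hg c).1 (homV_mulVec (hq1 c) (homV_mulVec (hq1 c) u.2.1))
          have hb : b + 1 + 1 + -2 = b := by ring
          rw [hb] at this
          exact this
        · exact hge c _
      · intro u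
        rfl
    choose φ hφ using hφ
    have hsum : (∑ c, φ c) = LinearMap.id := by
      apply LinearMap.ext
      intro u
      apply Subtype.ext
      rw [LinearMap.sum_apply, Submodule.coe_sum, LinearMap.id_apply]
      conv_rhs => rw [hgs' u u.2.1 u.2.2]
      refine Finset.sum_congr rfl fun c _ => ?_
      rw [hφ]
      unfold Tr
      rw [Matrix.add_mulVec, Matrix.add_mulVec, ← Matrix.mulVec_mulVec, hg1 c u u.2,
        Matrix.mulVec_zero, zero_add, ← Matrix.mulVec_mulVec, ← Matrix.mulVec_mulVec, hg2 c u u.2,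
        Matrix.mulVec_zero, zero_add, ← Matrix.mulVec_mulVec, ← Matrix.mulVec_mulVec]
    have hz : ∀ c, LinearMap.lTensor P (φ c) ω = 0 := by
      intro c
      by_cases h : P ≤ LinearMap.ker (ev c)
      · have hgc := (hg c).2.2.2 h
        have : φ c = 0 := by
          apply LinearMap.ext
          intro u
          apply Subtype.ext
          rw [hφ, hgc, Matrix.zero_mulVec]
          rfl
        rw [this, LinearMap.lTensor_zero, LinearMap.zero_apply]
      · have hlt : P ⊓ LinearMap.ker (ev c) < P := by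
          refine lt_of_le_of_ne inf_le_left ?_
          intro h'
          exact h (inf_eq_left.1 h')
        refine step S P (Cd S e b) (ev c) (q c) (hq c h).1 (hq c h).2 (g c) (hg c).2.1 (hg2 c)
          (φ c) (hφ c) ?_ ω hω
        refine ih _ ?_ _ rfl ?_
        · rw [← hP]
          exact Submodule.finrank_lt_finrank_of_lt hlt
        · intro h'
          rw [h'] at hlt
          exact not_top_lt hlt
    have hfin : ω = LinearMap.lTensor P (∑ c, φ c) ω := by
      rw [hsum, LinearMap.lTensor_id, LinearMap.id_apply]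
    rw [hfin]
    have : LinearMap.lTensor P (∑ c, φ c) = ∑ c, LinearMap.lTensor P (φ c) := by
      rw [← LinearMap.coe_lTensorHom, map_sum]
    rw [this, LinearMap.sum_apply]
    exact Finset.sum_eq_zero fun c _ => hz c
  intro P hT
  exact main _ P rfl hT

end Pool.Agent.ABC3.H92
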